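import Mathlib
import Pool.Agent.H35.Wpl

set_option autoImplicit false

namespace Pool.Agent.Results.MP_037a8f_lc.NotStatic

open Pool.Agent.H35.Wpl

theorem result :
    ¬ ∃ c : ℝ, ∀ (n : ℕ) (T₀ : T), IsBST n T₀ → ∃ a : ℝ, ∀ σ : List ℕ,
      (∀ x ∈ σ, 1 ≤ x ∧ x ≤ n) → (cost T₀ σ : ℝ) ≤ c * (OPTst n σ : ℝ) + a := by
  rintro ⟨c, h⟩
  obtain ⟨C, hC⟩ := exists_nat_ge c
  have h2 : C < 2 ^ C := Nat.lt_two_pow_self
  set q := 2 ^ (2 * C + 2) with hq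
  have hq1 : C * (2 * C + 4) ≤ q := by
    rw [hq, pow_add, mul_comm 2 C, pow_mul]
    nlinarith
  have hq0 : 0 < q := by positivity
  obtain ⟨a, ha⟩ := h (2 * q) (Z 1 q) (Z_keys _ _)
  obtain ⟨k, hk⟩ := exists_nat_gt a
  have b := ha (rep 1 q k) (fun x hx => by
    have := rep_mem _ _ _ x hx
    omega)
  rw [cost, cost_rep 1 q k 0 _ (fun _ _ => rfl)] at b
  have o := optst_le (2 * q) (2 * C + 4) (by
    rw [show 2 * C + 4 = 2 * C + 2 + 2 by ring, pow_add 2 (2 * C + 2), ← hq]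
    omega) (rep 1 q k)
  rw [rep_len] at o
  have e : C * OPTst (2 * q) (rep 1 q k) + k ≤ k * (q * (2 * q + 1)) := by
    have e1 := Nat.mul_le_mul_left C o
    have e2 := Nat.mul_le_mul_left (k * (2 * q)) hq1
    have e3 := Nat.mul_le_mul_left k hq0
    nlinarith
  have e' : (C : ℝ) * OPTst (2 * q) (rep 1 q k) + k ≤ ((k * (q * (2 * q + 1)) : ℕ) : ℝ) := by
    exact_mod_cast e
  have := mul_le_mul_of_nonneg_right hC (Nat.cast_nonneg (α := ℝ) (OPTst (2 * q) (rep 1 q k)))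
  linarith

end Pool.Agent.Results.MP_037a8f_lc.NotStatic
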